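import Pool.Agent.Helper76_AHH.KilA
import Pool.Agent.Helper76_ATT.OutN
import Pool.Agent.Helper34_KL2.Defs

/-!
# Helper76, AND2B: the end of a successful attempt (`KL2.Fin1`)
-/

set_option autoImplicit false

open scoped BigOperators NNReal Matrix

noncomputable section

namespace Pool.Agent.AHH.H76

open Pool.Agent.BED (Tor adj)
open Pool.Agent.ANP (Cfg Geo Fc)
open Pool.Agent.AND2B
open Pool.Agent.ATT (GT hN ka OutStmt)
open Pool.Agent.ATT.H76 (In mkA out_num)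
open Pool.Agent.AND2B.H28 (Hm GT_eq ka_eq)
open Pool.Agent.KL2 (Fin1 Rn Rs Ks)

variable {d M : ℕ} [NeZero M]

/-- THE END OF A SUCCESSFUL ATTEMPT -/
theorem fin1 (hOut : OutStmt) (V : Env d M) (n : ℕ) (T T' : Cfg (Tor d M))
    (run Q Rk : Finset (Tor d M)) (v : ℝ≥0) (val : Tor d M → ℝ) (q g₀ g₁ gb : ℝ)
    (hIn : In (Hm d M V.E) V.e₀ T (Rn V n run Q) Q v q g₀ g₁ gb) (K : ℝ) (hK : K * q ≤ 1)
    (hK1 : 2000 ≤ K) (hK2 : 100 / g₀ ≤ K) (hg₀ : 0 < g₀) (κs Λ Lc hk kI : ℝ)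
    (hH : (mkA (Hm d M V.E) V.e₀ T (Rn V n run Q) Rk Q v val q g₀ gb).Hyp κs g₀ Λ Lc hk kI)
    (Go : Matrix (Tor d M) (Tor d M) ℂ)
    (hSt : (mkA (Hm d M V.E) V.e₀ T (Rn V n run Q) Rk Q v val q g₀ gb).St T' ∅ Go)
    (hU : (mkA (Hm d M V.E) V.e₀ T (Rn V n run Q) Rk Q v val q g₀ gb).U T' ∅ Go < 1)
    (hF : ∀ b ∈ Q, ∀ x ∈ (mkA (Hm d M V.E) V.e₀ T (Rn V n run Q) Rk Q v val q g₀ gb).al T',
      ka V.e₀ V.e₀ T b * ‖GT (Hm d M V.E) V.e₀ V.e₀ T b x‖ ^ 2 ≤ q ^ 200)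
    (hrun : run ⊆ Al T) (hQ : ∀ x ∈ Q, x ∉ run) (rk N : ℕ) (hRk : Rk ⊆ V.Γ.nbh Q rk)
    (hN : (q⁻¹) ^ 2260 ≤ N) (J mm MM hK' : ℝ) (hJ : q ^ 244 ≤ J) (hmm : 4 * q ^ 80 ≤ mm)
    (hMM : 9 * (q⁻¹) ^ 280 ≤ MM) (hKK : q ^ 200 ≤ hK') :
    Fin1 V n T T' run Q val rk N J mm MM hK' := by
  obtain ⟨o1, o2, o3, o4⟩ := out_num hOut hIn K hK hK1 hK2 hg₀ κs Λ Lc hk kI hH T' Go hSt hU
  have hmb : T'.mb = T.mb := hSt.mb
  have hoff : ∀ x, x ∉ Rn V n run Q → x ∉ Q → T'.V x = T.V x ∧ T'.s x = T.s x := hSt.off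
  have hrn : ∀ x ∈ Rn V n run Q, T'.s x = 0 ∨ T'.V x = T.V x ∧ T'.s x = T.s x := by
    intro x hx
    rcases hSt.run x hx with h | h
    · exact Or.inl h
    · refine Or.inr ⟨h.1, ?_⟩
      rw [(hIn.hR x hx).1]
      exact h.2
  have hKs : Ks run T' ⊆ {x ∈ Rn V n run Q | T'.s x = 0} := by
    intro x hx
    obtain ⟨h1, h2⟩ := Finset.mem_filter.1 hx
    refine Finset.mem_filter.2 ⟨?_, h2⟩
    by_contra hcon
    have h3 := (hoff x hcon fun hq => hQ x hq h1).2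
    have h4 := (Finset.mem_filter.1 (hrun h1)).2
    rw [← h3, h2] at h4
    exact lt_irrefl _ h4
  have hRs : ∀ x ∈ Rs V n run Q T', x ∈ Rn V n run Q ∧ T'.s x ≠ 0 := fun x hx =>
    Finset.mem_filter.1 hx
  have hkap : ∀ x ∈ Rs V n run Q T', kap V.e₀ T x = ka V.e₀ V.e₀ T' x := by
    intro x hx
    obtain ⟨h1, h2⟩ := hRs x hx
    rw [ka_eq]
    unfold kap
    rw [hmb]
    rcases hrn x h1 with h | h
    · exact absurd h h2
    · rw [h.2]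
  have hRs' : Rs V n run Q T' = {y ∈ Rn V n run Q | T'.s y ≠ 0} := rfl
  refine ⟨hmb, hoff, hrn, ?_, ?_, ?_, ?_, ?_, ?_, ?_⟩
  · intro b hb
    exact hSt.app b hb (Finset.notMem_empty b)
  · have h1 : ((Ks run T').card : ℝ) ≤ N := by
      refine le_trans ?_ (o4.trans hN)
      exact_mod_cast Finset.card_le_card hKs
    exact_mod_cast h1
  · intro x hx
    have h1 : x ∈ Rk := hSt.near (hKs hx)
    exact hRk h1
  · intro x hx b hb
    have h1 := hF b hb x (Finset.mem_filter.2 (hRs x hx))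
    rw [GT_eq, ka_eq] at h1
    exact h1.trans hKK
  · intro x hx y hy
    have h1 := o1 x (hRs x hx).1 (hRs x hx).2 y (hRs y hy).1 (hRs y hy).2
    rw [GT_eq, GT_eq] at h1
    exact h1.trans hJ
  · intro x hx
    have h1 := o2 x (hRs x hx).1 (hRs x hx).2
    refine le_trans (le_of_eq ?_) (h1.trans hmm)
    unfold ATT.mx
    rw [← hRs']
    refine Finset.sum_congr rfl fun y hy => ?_
    rw [GT_eq, GT_eq, hkap y hy]
  · refine le_trans (le_of_eq ?_) (o3.trans hMM)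
    unfold ATT.MM ATT.mx
    rw [← hRs']
    refine Finset.sum_congr rfl fun x hx => ?_
    rw [hkap x hx]
    congr 1
    refine Finset.sum_congr rfl fun y hy => ?_
    rw [GT_eq, GT_eq, hkap y hy]

end Pool.Agent.AHH.H76
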