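import Pool.Agent.AHH.Defs
import Pool.Agent.Helper28_AHH.Net
import Pool.Agent.Helper54_BED.LA
import Pool.Agent.Helper76_ATT.NumC

/-!
# Helper76, AND2B: the language of the attempts and the language of the protocol
-/

set_option autoImplicit false

open scoped BigOperators NNReal Matrix

noncomputable section

namespace Pool.Agent.AHH.H76

open Pool.Agent.BED (Tor adj)
open Pool.Agent.ANP (Cfg Geo Fc)
open Pool.Agent.AND2B
open Pool.Agent.ATT (GT hN ka)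
open Pool.Agent.AFJ (LaR ind)
open Pool.Agent.LE.QF (BB KK)
open Pool.Agent.ATT.H76 (In0)

variable {d M : ℕ} [NeZero M]

open Pool.Agent.AND2B.H28 (Hm GT_eq ka_eq)

theorem Hm_symm (E : ℝ) (x y : Tor d M) : Hm d M E x y = Hm d M E y x := by
  unfold Hm Hr
  simp only [Matrix.add_apply]
  rw [Pool.Agent.BED.adj_symm x y]
  by_cases hxy : x = y
  · subst hxy; rfl
  · rw [Matrix.diagonal_apply_ne _ hxy, Matrix.diagonal_apply_ne _ (Ne.symm hxy)]

omit [NeZero M] in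
/-- fourth powers -/
theorem lar_eq (G : Matrix (Tor d M) (Tor d M) ℂ) (R : Finset (Tor d M)) (x : Tor d M) :
    LaR G R x = ∑ y ∈ R, ‖G x y‖ ^ 4 := by
  unfold LaR KK
  exact Finset.sum_congr rfl fun y _ => by ring

/-- THE START OF AN ATTEMPT -/
theorem in0_of_rl (V : Env d M) (b : Bud) (n : ℕ) (T₀ T : Cfg (Tor d M))
    (run₀ run P Q : Finset (Tor d M)) (hRl : Rl V b n T₀ run₀ P T run)
    (hfc : Fc V.Γ V.kk V.cl V.Dn n (V.kk (n + 1)) ∅ T run) (q G₁ cP gb : ℝ) (hq0 : 0 < q)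
    (hq : (V.cl (V.kk (n + 1)) : ℝ) = q ^ 2000) (he : 0 < V.e₀ ∧ V.e₀ ≤ q ^ 2000)
    (hc₀ : 0 < V.c₀) (hk1 : V.e₀ + V.cl 0 * V.C₀ ≤ 1)
    (hG : ∀ x y, ‖V.G₀ x y‖ ≤ G₁) (hPhi : ∀ x, Phi V.Γ (b.tau n) n P x ≤ cP)
    (hicR : 0 ≤ b.icR n) (hlR : 0 ≤ b.lR n) (hlam : 0 ≤ (b.q n (V.kk (n + 1))).lam)
    (hmis : (b.q n (V.kk (n + 1))).mis + b.icR n * cP ≤ q ^ 198 / 2)
    (hent : G₁ + (b.q n (V.kk (n + 1))).del + b.icR n * cP ≤ gb / 2) (hgb : 0 ≤ gb)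
    (hlar : (b.q n (V.kk (n + 1))).lam * (1 + b.lR n * cP) ≤ (q⁻¹) ^ 1500)
    (hQ : ∀ x ∈ Q, x ∉ run ∧ 0 < T.s x) (hcQ : (Q.card : ℝ) ≤ (q⁻¹) ^ 2) :
    In0 (Hm d M V.E) V.e₀ T (run ∩ V.Γ.nbh Q (V.Γ.ρ n)) Q (V.cl (V.kk (n + 1))) q V.c₀ V.C₀
      gb := by
  have hv : 0 < V.cl (V.kk (n + 1)) := by
    rw [← NNReal.coe_pos, hq]; positivity
  have hs : ∀ x ∈ run, T.s x = V.cl (V.kk (n + 1)) := by
    intro x hx
    have := hfc.runs x hx
    simpa using this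
  have halT : ∀ x, 0 < T.s x → x ∈ Al T := fun x hx => Finset.mem_filter.2 ⟨Finset.mem_univ x, hx⟩
  have halT₀ : ∀ x, 0 < T.s x → x ∈ Al T₀ := by
    intro x hx
    refine Finset.mem_filter.2 ⟨Finset.mem_univ x, ?_⟩
    rcases hRl.chg x with h | h
    · rw [← h.2]; exact hx
    · exact h.2.1
  have hgau : ∀ x, 0 < T.s x → V.c₀ ≤ (T.mb x).im ∧ ‖T.mb x‖ ≤ V.C₀ ∧
      ‖T.mb x - V.m₀‖ ≤ (b.q n (V.kk (n + 1))).del := by
    intro x hx
    have := hRl.st0.gau x (halT₀ x hx)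
    unfold gg at this
    rw [hRl.mb]
    exact this
  have hE : ∀ x y, 0 < T.s x → 0 < T.s y → ‖net V.E V.e₀ T x y‖ ≤ gb / 2 := by
    intro x y hx hy
    have h1 := hRl.ent x (halT x hx) y (halT y hy)
    have h2 := hRl.st0.ent x (halT₀ x hx) y (halT₀ y hy)
    have h3 := mul_le_mul_of_nonneg_left (hPhi x) hicR
    calc ‖net V.E V.e₀ T x y‖ = ‖(net V.E V.e₀ T x y - net V.E V.e₀ T₀ x y) +
          (net V.E V.e₀ T₀ x y - V.G₀ x y) + V.G₀ x y‖ := by congr 1; ring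
      _ ≤ ‖(net V.E V.e₀ T x y - net V.E V.e₀ T₀ x y)‖ +
          ‖(net V.E V.e₀ T₀ x y - V.G₀ x y)‖ + ‖V.G₀ x y‖ := norm_add₃_le
      _ ≤ gb / 2 := by
          have := hG x y
          linarith
  have hrun : ∀ x ∈ run ∩ V.Γ.nbh Q (V.Γ.ρ n), x ∈ run ∧ 0 < T.s x := by
    intro x hx
    have h1 := (Finset.mem_inter.1 hx).1
    exact ⟨h1, by rw [hs x h1]; exact hv⟩
  refine ⟨hq0, hq, Hm_symm V.E, he, fun x hx => lt_of_lt_of_le hc₀ (hgau x hx).1, ?_, ?_, ?_, hcQ,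
    ?_, ?_, ?_⟩
  · rw [Finset.disjoint_left]
    intro x hx hxQ
    exact (hQ x hxQ).1 (hrun x hx).1
  · intro x hx
    obtain ⟨h1, h2⟩ := hrun x hx
    refine ⟨hs x h1, (hgau x h2).1, ?_⟩
    exact (le_abs_self _).trans ((Complex.abs_im_le_norm _).trans (hgau x h2).2.1)
  · intro x hx
    obtain ⟨h1, h2⟩ := hQ x hx
    refine ⟨h2.ne', ?_, ?_⟩
    · rw [ka_eq]
      unfold kap
      have h3 : (T.s x : ℝ) ≤ V.cl 0 := by
        rcases hfc.rest x h1 with h | h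
        · rw [h]; simp
        · exact_mod_cast h.2
      have h4 : (T.mb x).im ≤ V.C₀ :=
        (le_abs_self _).trans ((Complex.abs_im_le_norm _).trans (hgau x h2).2.1)
      have h5 := (hgau x h2).1
      have h6 : (0 : ℝ) ≤ T.s x := NNReal.coe_nonneg _
      have h7 : (T.s x : ℝ) * (T.mb x).im ≤ V.cl 0 * V.C₀ :=
        mul_le_mul h3 h4 (hc₀.le.trans h5) (NNReal.coe_nonneg _)
      linarith
    · rw [GT_eq]
      have := hE x x h2 h2
      linarith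
  · intro c hc
    obtain ⟨h1, h2⟩ := hrun c hc
    rw [GT_eq]
    have h3 := hRl.ent c (halT c h2) c (halT c h2)
    have h4 := hRl.st0.mis c (hRl.sub.1 h1)
    have h5 := mul_le_mul_of_nonneg_left (hPhi c) hicR
    rw [hRl.mb]
    calc ‖net V.E V.e₀ T c c - T₀.mb c‖ = ‖(net V.E V.e₀ T c c - net V.E V.e₀ T₀ c c) +
          (net V.E V.e₀ T₀ c c - T₀.mb c)‖ := by congr 1; ring
      _ ≤ _ := (norm_add_le _ _).trans (by linarith)
  · intro x hx y hy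
    rw [GT_eq]
    exact hE x y (hrun x hx).2 (hrun y hy).2
  · intro x hx
    obtain ⟨h1, h2⟩ := hrun x hx
    rw [GT_eq, ← lar_eq]
    have h3 := hRl.lar x (halT x h2)
    have h4 : LaR (net V.E V.e₀ T) (run ∩ V.Γ.nbh Q (V.Γ.ρ n)) x ≤
        LaR (net V.E V.e₀ T) run x := by
      unfold LaR
      exact Finset.sum_le_sum_of_subset_of_nonneg Finset.inter_subset_left
        fun y _ _ => by positivity
    have h5 := mul_le_mul_of_nonneg_left (hPhi x) hlR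
    have h6 := mul_le_mul_of_nonneg_left (add_le_add_right h5 1) hlam
    linarith

end Pool.Agent.AHH.H76
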