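import Pool.Agent.Helper67_AHH.OkT
import Pool.Agent.Helper17_AHH.NumZ
import Pool.Agent.Helper28_AHH.KNum

/-!
# AND2B: the numbers of the locality, `H67.LNum` for `parZ` (helper76)
-/

set_option autoImplicit false

open scoped BigOperators NNReal ENNReal Matrix

noncomputable section

namespace Pool.Agent.AHH.H76

open Pool.Agent.AND.Num
open Pool.Agent.AHH.H17 (parZ)
open Pool.Agent.AHH.H67 (LNum)
open Pool.Agent.AND2B.H28 (Kd Kd_nonneg sum_Dn)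
open Pool.Agent.ANR.H89 (cI)

/-- what is used about a small `s` -/
structure LS (d α : ℕ) (c K s : ℝ) : Prop where
  one : s ≤ 1
  cL : 4 * (2 + 2 * (K * s ^ (-(5 / 4) : ℝ))) ≤ s ^ (-(5 : ℝ))
  cρ : 3 / 2 + 2 * (K * s ^ (-(5 / 4) : ℝ)) ≤ s ^ (-(3 : ℝ)) / 2
  L : 4 / (c / 2 * s) ^ 4 * Real.exp (-(c / 2 * s / (32 * d) * (2 * s ^ (-(5 : ℝ))))) ≤ 1
  δ : 4 / (c / 2 * s) * Real.exp (-(c / 2 * s / (32 * d) * (2 * s ^ (-(5 : ℝ))))) ≤ s
  old : 2 / (c / 2 * s ^ (α + 1)) * Real.exp (-(c / 2 * s / (4 * d) * s ^ (-(3 : ℝ)))) ≤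
    (s ^ (α + 1)) ^ (10 : ℝ)

theorem lsmall (d α : ℕ) {c K : ℝ} (hd : 0 < d) (hc : 0 < c) : Small fun s => LS d α c K s := by
  have hd' : (0 : ℝ) < d := by exact_mod_cast hd
  have a1 := small_pow' 8 (1 / 2) 0 (-5) (by norm_num) (by norm_num)
  have a2 := small_pow' (8 * K) (1 / 2) (-(5 / 4)) (-5) (by norm_num) (by norm_num)
  have a3 := small_pow' (3 / 2) (1 / 4) 0 (-3) (by norm_num) (by norm_num)
  have a4 := small_pow' (2 * K) (1 / 4) (-(5 / 4)) (-3) (by norm_num) (by norm_num)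
  have a5 := small_exp_pow (4 / (c / 2) ^ 4) (c / 2 / (16 * d)) 4 4 0 (by positivity) (by norm_num)
  have a6 := small_exp_pow (4 / (c / 2)) (c / 2 / (16 * d)) 4 1 1 (by positivity) (by norm_num)
  have a7 := small_exp_pow (2 / (c / 2)) (c / 2 / (4 * d)) 2 (α + 1) ((α + 1) * 10)
    (by positivity) (by norm_num)
  refine ((((((((small_le 1 one_pos).and a1).and a2).and a3).and a4).and a5).and a6).and a7).mono ?_
  rintro s hs ⟨⟨⟨⟨⟨⟨⟨h1, h2⟩, h3⟩, h4⟩, h5⟩, h6⟩, h7⟩, h8⟩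
  rw [Real.rpow_zero] at h2 h4
  have e1 : c / 2 * s / (32 * d) * (2 * s ^ (-(5 : ℝ))) = c / 2 / (16 * d) * s ^ (-(4 : ℝ)) := by
    have e0 : s * s ^ (-(5 : ℝ)) = s ^ (-(4 : ℝ)) := by
      nth_rewrite 1 [← Real.rpow_one s]
      rw [← Real.rpow_add hs]
      norm_num
    rw [← e0]
    field_simp
    ring
  have e2 : c / 2 * s / (4 * d) * s ^ (-(3 : ℝ)) = c / 2 / (4 * d) * s ^ (-(2 : ℝ)) := by
    have e0 : s * s ^ (-(3 : ℝ)) = s ^ (-(2 : ℝ)) := by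
      nth_rewrite 1 [← Real.rpow_one s]
      rw [← Real.rpow_add hs]
      norm_num
    rw [← e0]
    field_simp
  refine ⟨h1, by linarith, by linarith, ?_, ?_, ?_⟩
  · rw [e1]
    rw [Real.rpow_zero] at h6
    have e3 : 4 / (c / 2 * s) ^ 4 = 4 / (c / 2) ^ 4 * s ^ (-(4 : ℝ)) := by
      rw [Real.rpow_neg hs.le, mul_pow]
      have : s ^ (4 : ℝ) = s ^ (4 : ℕ) := by
        rw [← Real.rpow_natCast]
        norm_num
      rw [this]
      field_simp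
    rw [e3]
    exact h6
  · rw [e1]
    rw [Real.rpow_one] at h7
    have e3 : 4 / (c / 2 * s) = 4 / (c / 2) * s ^ (-(1 : ℝ)) := by
      rw [Real.rpow_neg hs.le, Real.rpow_one]
      field_simp
    rw [e3]
    exact h7
  · rw [e2]
    have e3 : 2 / (c / 2 * s ^ (α + 1)) = 2 / (c / 2) * s ^ (-((α : ℝ) + 1)) := by
      rw [Real.rpow_neg hs.le]
      have : s ^ ((α : ℝ) + 1) = s ^ (α + 1) := by
        rw [← Real.rpow_natCast]
        norm_num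
      rw [this]
      field_simp
    have e4 : (s ^ (α + 1)) ^ (10 : ℝ) = s ^ (((α : ℝ) + 1) * 10) := by
      rw [← Real.rpow_natCast, ← Real.rpow_mul hs.le]
      norm_num
    rw [e3, e4]
    exact h8


section

open Pool.Agent.AHH.H61 (kk_mono cl_pos' cl_anti' sg_pos cl_le')

variable {d : ℕ} {V : AND2B.Env d} {a c C : ℝ} {n k : ℕ}

/-- the field `sum` -/
theorem lnum_sum (hP : V.Pre a) (hn : n ≤ V.N) :
    ∑ i ∈ Finset.range (n + 1), (3 ^ d * V.Dn i : ℝ) / V.G.L i ≤ 1 / 4 := by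
  refine le_trans ?_ (hP.sc.ds)
  have h1 : ∀ i, (3 ^ d * V.Dn i : ℝ) / V.G.L i = (3 ^ d * V.Dn i : ℝ) / 2 ^ V.l i := by
    intro i
    have : (V.G.L i : ℝ) = 2 ^ V.l i := by
      show ((2 ^ V.l i : ℕ) : ℝ) = 2 ^ V.l i
      push_cast
      rfl
    rw [this]
  rw [Finset.sum_congr rfl fun i _ => h1 i]
  refine Finset.sum_le_sum_of_subset_of_nonneg (Finset.range_mono (by omega)) ?_
  intro i _ _
  positivity

/-- the field `cL` -/
theorem lnum_cL (hP : V.Pre a) (hn : n ≤ V.N) {K : ℝ} {α : ℕ} (hK : K = Kd d V.th)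
    (hs : LS d α c K (V.sg (n + 1))) :
    4 * (cI d V.Dn (Finset.range (n + 1)) + 1) ≤ V.G.L n := by
  have h1 := sum_Dn hP hn
  have h2 := hP.sc.llow n hn
  have h3 : (V.G.L n : ℝ) = 2 ^ V.l n := by
    show ((2 ^ V.l n : ℕ) : ℝ) = 2 ^ V.l n
    push_cast
    rfl
  have h4 := hs.cL
  rw [hK] at h4
  rw [h3]
  unfold cI
  have h5 : V.sg (n + 1) ^ (-(5 : ℝ)) ≤ 2 ^ V.l n := h2
  linarith

/-- the field `cρ` -/
theorem lnum_cρ (hP : V.Pre a) {m : ℕ} (hn : m ≤ V.N) {K : ℝ} {α : ℕ} (hK : K = Kd d V.th)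
    (hs : LS d α c K (V.sg (m + 1))) :
    cI d V.Dn (Finset.range (m + 1)) + 1 / 2 ≤ (V.G.ρ m : ℝ) / 2 := by
  have h1 := sum_Dn hP hn
  have h2 := hP.sc.rlow m hn
  have h3 : (V.G.ρ m : ℝ) = 2 ^ V.r m := by
    show ((2 ^ V.r m : ℕ) : ℝ) = 2 ^ V.r m
    push_cast
    rfl
  have h4 := hs.cρ
  rw [hK] at h4
  rw [h3]
  unfold cI
  have h5 : V.sg (m + 1) ^ (-(3 : ℝ)) ≤ 2 ^ V.r m := h2
  linarith

/-- monotonicity of the bounds -/
theorem mono_L {c s u D q L : ℝ} {j : ℕ} (hc : 0 < c) (hs : 0 < s) (hsu : s ≤ u) (hD : 0 < D)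
    (hq : 0 ≤ q) (hqL : q ≤ L) :
    4 / (c * u) ^ j * Real.exp (-(c * u / D * L)) ≤
      4 / (c * s) ^ j * Real.exp (-(c * s / D * q)) := by
  have h1 : 0 < c * s := mul_pos hc hs
  have h2 : c * s ≤ c * u := mul_le_mul_of_nonneg_left hsu hc.le
  have h3 : 4 / (c * u) ^ j ≤ 4 / (c * s) ^ j :=
    div_le_div_of_nonneg_left (by norm_num) (pow_pos h1 j) (pow_le_pow_left₀ h1.le h2 j)
  have h4 : c * s / D * q ≤ c * u / D * L := by
    refine mul_le_mul ?_ hqL hq (div_nonneg (h1.le.trans h2) hD.le)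
    exact div_le_div_of_nonneg_right h2 hD.le
  exact mul_le_mul h3 (Real.exp_le_exp.2 (by linarith)) (Real.exp_pos _).le (by positivity)

/-- the field `L` -/
theorem lnum_L (hP : V.Pre a) (hc : 0 < c) (hd : 0 < d) (hn : n ≤ V.N) (hk : k < V.kk (n + 1))
    {K : ℝ} {α : ℕ} (hs : LS d α c K (V.sg (n + 1))) :
    4 / (c / 2 * V.cl (k + 1)) ^ 4 *
      Real.exp (-(c / 2 * V.cl (k + 1) / (32 * d) * (2 * V.G.L n))) ≤ 1 := by
  have hs0 := sg_pos hP (n + 1)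
  have hsc : V.sg (n + 1) ≤ V.cl (k + 1) := cl_anti' hP hk
  have h2 := hP.sc.llow n hn
  have h3 : (V.G.L n : ℝ) = 2 ^ V.l n := by
    show ((2 ^ V.l n : ℕ) : ℝ) = 2 ^ V.l n
    push_cast
    rfl
  have h5 : V.sg (n + 1) ^ (-(5 : ℝ)) ≤ V.G.L n := by rw [h3]; exact h2
  have hd' : (0 : ℝ) < d := by exact_mod_cast hd
  refine le_trans ?_ hs.L
  exact mono_L (by positivity) hs0 hsc (by positivity)
    (by have := Real.rpow_nonneg hs0.le (-(5 : ℝ)); positivity) (by linarith)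

/-- the field `δ` -/
theorem lnum_δ (hP : V.Pre a) (hc : 0 < c) (hd : 0 < d) (hn : n ≤ V.N) (hk : k < V.kk (n + 1))
    {K : ℝ} {α : ℕ} (hs : LS d α c K (V.sg (n + 1))) :
    4 / (c / 2 * V.cl (k + 1)) *
      Real.exp (-(c / 2 * V.cl (k + 1) / (32 * d) * (2 * V.G.L n))) ≤ V.sg (n + 1) := by
  have hs0 := sg_pos hP (n + 1)
  have hsc : V.sg (n + 1) ≤ V.cl (k + 1) := cl_anti' hP hk
  have h2 := hP.sc.llow n hn
  have h3 : (V.G.L n : ℝ) = 2 ^ V.l n := by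
    show ((2 ^ V.l n : ℕ) : ℝ) = 2 ^ V.l n
    push_cast
    rfl
  have h5 : V.sg (n + 1) ^ (-(5 : ℝ)) ≤ V.G.L n := by rw [h3]; exact h2
  have hd' : (0 : ℝ) < d := by exact_mod_cast hd
  refine le_trans ?_ hs.δ
  have h6 := mono_L (j := 1) (c := c / 2) (D := 32 * d) (q := 2 * V.sg (n + 1) ^ (-(5 : ℝ)))
    (L := 2 * V.G.L n) (by positivity) hs0 hsc (by positivity)
    (by have := Real.rpow_nonneg hs0.le (-(5 : ℝ)); positivity) (by linarith)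
  simpa only [pow_one] using h6

/-- monotonicity, for the old nodes: `s` smallest clock, `t` the clock of the old nodes -/
theorem mono_old {c s u t D q L : ℝ} (hc : 0 < c) (hs : 0 < s) (hsu : s ≤ u) (ht : 0 < t)
    (hD : 0 < D) (hqL : q ≤ L) :
    2 / (c * u) * Real.exp (-(c * t / D * L)) ≤ 2 / (c * s) * Real.exp (-(c * t / D * q)) := by
  have h1 : 0 < c * s := mul_pos hc hs
  have h2 : c * s ≤ c * u := mul_le_mul_of_nonneg_left hsu hc.le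
  have h3 : 2 / (c * u) ≤ 2 / (c * s) := div_le_div_of_nonneg_left (by norm_num) h1 h2
  have h4 : c * t / D * q ≤ c * t / D * L := mul_le_mul_of_nonneg_left hqL (by positivity)
  exact mul_le_mul h3 (Real.exp_le_exp.2 (by linarith)) (Real.exp_pos _).le (by positivity)

/-- the field `old` -/
theorem lnum_old (hP : V.Pre a) (hc : 0 < c) (hd : 0 < d) {m : ℕ} (hn : m + 1 ≤ V.N)
    (hk : k < V.kk (m + 1 + 1)) {K : ℝ} (hs : LS d V.α c K (V.sg (m + 1))) :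
    2 / (c / 2 * V.cl (k + 1)) *
      Real.exp (-(c / 2 * V.cl (V.kk (m + 1)) / (4 * d) * V.G.ρ m)) ≤ (V.cl k : ℝ) ^ (10 : ℝ) := by
  have hs0 := sg_pos hP (m + 1)
  have hlow : V.sg (m + 1) ^ (V.α + 1) ≤ V.sg (m + 1 + 1) := hP.sc.low (m + 1) hn
  have hsc : V.sg (m + 1 + 1) ≤ V.cl (k + 1) := cl_anti' hP hk
  have hsk : V.sg (m + 1 + 1) ≤ V.cl k := cl_anti' hP hk.le
  have h2 := hP.sc.rlow m (by omega)
  have h3 : (V.G.ρ m : ℝ) = 2 ^ V.r m := by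
    show ((2 ^ V.r m : ℕ) : ℝ) = 2 ^ V.r m
    push_cast
    rfl
  have h5 : V.sg (m + 1) ^ (-(3 : ℝ)) ≤ V.G.ρ m := by rw [h3]; exact h2
  have hd' : (0 : ℝ) < d := by exact_mod_cast hd
  have hp : 0 < V.sg (m + 1) ^ (V.α + 1) := pow_pos hs0 _
  have h6 := mono_old (c := c / 2) (D := 4 * d) (t := V.sg (m + 1)) (by positivity) hp
    (hlow.trans hsc) hs0 (by positivity) h5
  refine (h6.trans hs.old).trans ?_
  exact Real.rpow_le_rpow hp.le (hlow.trans hsk) (by norm_num)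

/-- ALL FIELDS -/
theorem lnum_of (hP : V.Pre a) (hc : 0 < c) (hd : 0 < d) (hn : n ≤ V.N) (hk0 : V.kk n ≤ k)
    (hk : k < V.kk (n + 1)) (hs : ∀ s, 0 < s → s ≤ (V.w : ℝ) → LS d V.α c (Kd d V.th) s) :
    LNum (toE V c C) n k (parZ V c C n k) := by
  have h0 := hs _ (sg_pos hP (n + 1)) (cl_le' hP _)
  have hcl : 0 < (V.cl k : ℝ) := cl_pos' hP k
  have hcl1 : (V.cl k : ℝ) ≤ 1 :=
    (cl_le' hP k).trans (hs V.w (by exact_mod_cast hP.w) le_rfl).one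
  refine ⟨lnum_sum hP hn, lnum_cL hP hn rfl h0, ?_, ?_, ?_, ⟨Real.rpow_nonneg hcl.le _, ?_⟩⟩
  · rintro m rfl
    exact lnum_cρ hP (by omega) rfl (hs _ (sg_pos hP (m + 1)) (cl_le' hP _))
  · refine (lnum_L hP hc hd hn hk h0).trans ?_
    show 1 ≤ 4 * (1 / 4 * (V.cl k : ℝ) ^ (-(3 / 4) : ℝ) * (2 - V.sg n ^ (1 / 400 : ℝ)))
    have h1 : 1 ≤ (V.cl k : ℝ) ^ (-(3 / 4) : ℝ) :=
      Real.one_le_rpow_of_pos_of_le_one_of_nonpos hcl hcl1 (by norm_num)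
    have h2 : V.sg n ^ (1 / 400 : ℝ) ≤ 1 :=
      Real.rpow_le_one (sg_pos hP n).le
        ((cl_le' hP _).trans (hs V.w (by exact_mod_cast hP.w) le_rfl).one) (by norm_num)
    nlinarith
  · refine (lnum_δ hP hc hd hn hk h0).trans ?_
    show V.sg (n + 1) ≤ (V.cl k : ℝ) ^ (1 / 8 - 1 / 200 : ℝ)
    have h1 : V.sg (n + 1) ≤ V.cl k := cl_anti' hP hk.le
    refine h1.trans ?_
    nth_rewrite 1 [← Real.rpow_one (V.cl k : ℝ)]
    exact Real.rpow_le_rpow_of_exponent_ge hcl hcl1 (by norm_num)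
  · rintro m rfl
    exact lnum_old hP hc hd hn hk (hs _ (sg_pos hP (m + 1)) (cl_le' hP _))

end

/-- THE NUMBERS OF THE LOCALITY -/
theorem lnum (d : ℕ) {a es c C : ℝ} (hd : 3 ≤ d) (hc : 0 < c) :
    AND2B.Ev d a es c C fun V => ∀ n k, n ≤ V.N → V.kk n ≤ k → k < V.kk (n + 1) →
      LNum (toE V c C) n k (parZ V c C n k) := by
  refine AND2B.Ev.intro' 1 1 one_pos one_pos ?_
  intro th c₁ C₁ α J h1 h2 h3 h4 h5 h6
  obtain ⟨w₀, hw, hw1, hs⟩ := (lsmall d α (c := c) (K := Kd d th) (by omega) hc).ex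
  refine ⟨1, w₀, one_pos, hw, ?_⟩
  intro V hG e1 e2 e3 e4 e5 g1 g2 n k hn hk0 hk
  refine lnum_of hG.toPre hc (by omega) hn hk0 hk ?_
  intro s s0 s1
  rw [e4, e1]
  exact hs s s0 (s1.trans g2)

end Pool.Agent.AHH.H76
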